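import Mathlib
import Pool.Agent.Lib.MP_fe1d70_nt.One

namespace Pool.Agent.Results.MP_fe1d70_nt.QOne

open Matrix MvPolynomial Pool.Agent.Lib.MP_fe1d70_nt

/-- Question Q1. The entry of row `j+1` and column `k+1` (`0 ≤ j, k < (p-1)/2`) is written with
Legendre symbols of integers; the indeterminates `x, y, z, w` are `X 0, X 1, X 2, X 3`. -/
theorem result (p : ℕ) [Fact p.Prime] (hp : p % 4 = 1) :
    (Matrix.of fun j k : Fin ((p - 1) / 2) =>
        legendreSym p (((j : ℕ) + 1 : ℤ) + ((k : ℕ) + 1 : ℤ))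
          - legendreSym p (((j : ℕ) + 1 : ℤ) - ((k : ℕ) + 1 : ℤ))).det
      = (-(p : ℤ)) ^ ((p - 1) / 4) ∧
    (Matrix.of fun j k : Fin ((p - 1) / 2) =>
        (X 0 + C (legendreSym p (((j : ℕ) + 1 : ℤ) + ((k : ℕ) + 1 : ℤ)))
          + C (legendreSym p (((j : ℕ) + 1 : ℤ) - ((k : ℕ) + 1 : ℤ)))
          + C (legendreSym p ((j : ℕ) + 1 : ℤ)) * X 1
          + C (legendreSym p ((k : ℕ) + 1 : ℤ)) * X 2
          + C (legendreSym p (((j : ℕ) + 1 : ℤ) * ((k : ℕ) + 1 : ℤ))) * X 3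
            : MvPolynomial (Fin 4) ℤ)).det
      = C ((-(p : ℤ)) ^ ((p - 5) / 4)) *
          (C ((((p - 1) / 2 : ℕ) : ℤ) ^ 2) * X 3 * X 0
            - (C (((p - 1) / 2 : ℕ) : ℤ) * X 1 - 1) * (C (((p - 1) / 2 : ℕ) : ℤ) * X 2 - 1)) := by
  have e1 : ∀ j k : Fin ((p - 1) / 2),
      legendreSym p (((j : ℕ) + 1 : ℤ) + ((k : ℕ) + 1 : ℤ))
        = quadraticChar (ZMod p) (kap p j + kap p k) := by
    intro j k
    simp only [legendreSym, kap]
    push_cast
    rfl
  have e2 : ∀ j k : Fin ((p - 1) / 2),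
      legendreSym p (((j : ℕ) + 1 : ℤ) - ((k : ℕ) + 1 : ℤ))
        = quadraticChar (ZMod p) (kap p j - kap p k) := by
    intro j k
    simp only [legendreSym, kap]
    push_cast
    rfl
  have e3 : ∀ j : Fin ((p - 1) / 2), legendreSym p ((j : ℕ) + 1 : ℤ) = cvec p j := by
    intro j
    simp only [legendreSym, cvec, kap]
    push_cast
    rfl
  constructor
  · rw [← det_Mm hp]
    congr 1
    ext j k
    simp only [Matrix.of_apply, Mm, e1, e2]
  · have h := det_D_one hp (X 0 : MvPolynomial (Fin 4) ℤ) (X 1) (X 2) (X 3)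
    have hL : (Matrix.of fun j k : Fin ((p - 1) / 2) =>
        (X 0 + C (legendreSym p (((j : ℕ) + 1 : ℤ) + ((k : ℕ) + 1 : ℤ)))
          + C (legendreSym p (((j : ℕ) + 1 : ℤ) - ((k : ℕ) + 1 : ℤ)))
          + C (legendreSym p ((j : ℕ) + 1 : ℤ)) * X 1
          + C (legendreSym p ((k : ℕ) + 1 : ℤ)) * X 2
          + C (legendreSym p (((j : ℕ) + 1 : ℤ) * ((k : ℕ) + 1 : ℤ))) * X 3
            : MvPolynomial (Fin 4) ℤ))
        = Matrix.of fun j k : Fin ((p - 1) / 2) =>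
            (X 0 + ((Mp p j k : ℤ) : MvPolynomial (Fin 4) ℤ)
              + ((cvec p j : ℤ) : MvPolynomial (Fin 4) ℤ) * X 1
              + ((cvec p k : ℤ) : MvPolynomial (Fin 4) ℤ) * X 2
              + ((cvec p j : ℤ) : MvPolynomial (Fin 4) ℤ)
                * ((cvec p k : ℤ) : MvPolynomial (Fin 4) ℤ) * X 3) := by
      ext1 j k
      simp only [Matrix.of_apply, e1, e2, e3, legendreSym.mul, Mp, map_mul, Int.cast_add]
      simp only [MvPolynomial.C_apply, ← eq_intCast (MvPolynomial.C : ℤ →+* MvPolynomial (Fin 4) ℤ)]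
      ring
    rw [hL, h]
    simp only [map_pow, map_neg, map_natCast]

end Pool.Agent.Results.MP_fe1d70_nt.QOne
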