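import Mathlib
import Pool.Agent.Lib.MP_fe1d70_nt.Div
import Pool.Agent.Lib.MP_fe1d70_nt.ClassNumber

namespace Pool.Agent.Results.MP_fe1d70_nt.QTwo

open Matrix MvPolynomial Pool.Agent.Lib.MP_fe1d70_nt

/-- `(-1)^((h+1)/2) ∏ χ(j) = 1` -/
lemma sign_eq {p : ℕ} [Fact p.Prime] (hp : p % 4 = 3) (h : ℕ)
    (hs : sS p = (2 - quadraticChar (ZMod p) 2) * (h : ℤ)) :
    (-1 : ℤ) ^ ((h + 1) / 2) * ∏ i, cvec p i = 1 := by
  obtain ⟨N, hN1, hN2⟩ := prod_pm (cvec p) cvec_sq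
  rw [hN1, ← pow_add]
  have h8 : p % 8 = 3 ∨ p % 8 = 7 := by omega
  have hsum : sS p = (((p - 1) / 2 : ℕ) : ℤ) - 2 * N := hN2
  rw [hsum, chi_two hp] at hs
  apply Even.neg_one_pow
  rcases h8 with h8 | h8
  · have he : Even ((p - 3) / 4) := ⟨p / 8, by omega⟩
    rw [he.neg_one_pow] at hs
    rw [Nat.even_iff]
    omega
  · have he : Odd ((p - 3) / 4) := ⟨p / 8, by omega⟩
    rw [he.neg_one_pow] at hs
    rw [Nat.even_iff]
    omega

/-- Question Q2. The indeterminates `x, y, w` are `X 0, X 1, X 2`; `K` is the imaginary quadratic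
field `ℚ(√-p)`, i.e. a number field of degree two that contains a square root of `-p`. -/
theorem result (p : ℕ) [Fact p.Prime] (hp : p % 4 = 3) (hp3 : 3 < p) :
    ∃ q : ℤ, ∀ (K : Type) [Field K] [NumberField K], Module.finrank ℚ K = 2 →
      (∃ a : K, a ^ 2 = -(p : K)) →
      C ((-1 : ℚ) ^ ((NumberField.classNumber K + 1) / 2)) *
        (Matrix.of fun j k : Fin ((p - 1) / 2) =>
          (X 0 + C ((legendreSym p (((j : ℕ) + 1 : ℤ) + ((k : ℕ) + 1 : ℤ)) : ℤ) : ℚ)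
            + C ((legendreSym p (((j : ℕ) + 1 : ℤ) - ((k : ℕ) + 1 : ℤ)) : ℤ) : ℚ)
            + C ((legendreSym p ((j : ℕ) + 1 : ℤ) : ℤ) : ℚ) * X 1
            + C ((legendreSym p (((j : ℕ) + 1 : ℤ) * ((k : ℕ) + 1 : ℤ)) : ℤ) : ℚ) * X 2
              : MvPolynomial (Fin 3) ℚ)).det
      = C ((p : ℚ) ^ ((p - 3) / 4)) *
          (C (((p - 1) / 2 : ℕ) : ℚ) * X 1 - 1
            + C ((2 - (legendreSym p 2 : ℚ)) * (NumberField.classNumber K : ℚ)) * (X 2 + X 0)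
            - C ((legendreSym p 2 : ℚ) * (16 * (q : ℚ) / (p : ℚ))) * X 2 * X 0) := by
  have hp2 : p ≠ 2 := by omega
  have hp' : p.Prime := Fact.out
  obtain ⟨q', hq'⟩ := sixteen_dvd (p := p) hp
  have hl2 : legendreSym p 2 = quadraticChar (ZMod p) 2 := by simp [legendreSym]
  have hc2 : legendreSym p 2 * legendreSym p 2 = 1 := by
    rw [hl2, ← sq]; exact quadraticChar_sq_one (two_ne_zero' hp2)
  refine ⟨legendreSym p 2 * q', ?_⟩
  intro K _ _ hK hex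
  obtain ⟨α, hα⟩ := hex
  have hcn := class_number_formula (p := p) hp hp3 hK hα
  have hsign := sign_eq hp _ hcn
  rw [← hl2] at hcn
  have e1 : ∀ j k : Fin ((p - 1) / 2),
      legendreSym p (((j : ℕ) + 1 : ℤ) + ((k : ℕ) + 1 : ℤ))
        = quadraticChar (ZMod p) (kap p j + kap p k) := by
    intro j k
    simp only [legendreSym, kap]
    push_cast
    rfl
  have e2 : ∀ j k : Fin ((p - 1) / 2),
      legendreSym p (((j : ℕ) + 1 : ℤ) - ((k : ℕ) + 1 : ℤ))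
        = quadraticChar (ZMod p) (kap p j - kap p k) := by
    intro j k
    simp only [legendreSym, kap]
    push_cast
    rfl
  have e3 : ∀ j : Fin ((p - 1) / 2), legendreSym p ((j : ℕ) + 1 : ℤ) = cvec p j := by
    intro j
    simp only [legendreSym, cvec, kap]
    push_cast
    rfl
  have hp0 : (p : ℚ) ≠ 0 := by exact_mod_cast hp'.ne_zero
  have hip : (C ((p : ℚ)⁻¹) : MvPolynomial (Fin 3) ℚ) * ((p : ℕ) : MvPolynomial (Fin 3) ℚ) = 1 := by
    rw [← map_natCast (C : ℚ →+* MvPolynomial (Fin 3) ℚ), ← map_mul, inv_mul_cancel₀ hp0, map_one]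
  have h := det_E_three (p := p) hp (C ((p : ℚ)⁻¹) : MvPolynomial (Fin 3) ℚ) hip (X 0) (X 1) (X 2)
  have hL : (Matrix.of fun j k : Fin ((p - 1) / 2) =>
          (X 0 + C ((legendreSym p (((j : ℕ) + 1 : ℤ) + ((k : ℕ) + 1 : ℤ)) : ℤ) : ℚ)
            + C ((legendreSym p (((j : ℕ) + 1 : ℤ) - ((k : ℕ) + 1 : ℤ)) : ℤ) : ℚ)
            + C ((legendreSym p ((j : ℕ) + 1 : ℤ) : ℤ) : ℚ) * X 1
            + C ((legendreSym p (((j : ℕ) + 1 : ℤ) * ((k : ℕ) + 1 : ℤ)) : ℤ) : ℚ) * X 2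
              : MvPolynomial (Fin 3) ℚ))
        = Matrix.of fun j k : Fin ((p - 1) / 2) =>
            (X 0 + ((Mp p j k : ℤ) : MvPolynomial (Fin 3) ℚ)
              + ((cvec p j : ℤ) : MvPolynomial (Fin 3) ℚ) * X 1
              + ((cvec p j : ℤ) : MvPolynomial (Fin 3) ℚ)
                * ((cvec p k : ℤ) : MvPolynomial (Fin 3) ℚ) * X 2) := by
    ext1 j k
    simp only [Matrix.of_apply, e1, e2, e3, legendreSym.mul, Mp, Int.cast_mul, map_mul,
      Int.cast_add, map_intCast]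
    ring
  rw [hL, h, hq', det_Mp_three hp, hcn]
  have hs1 : (-1 : ℚ) ^ ((NumberField.classNumber K + 1) / 2) * ((∏ i, cvec p i : ℤ) : ℚ) = 1 := by
    exact_mod_cast congrArg (Int.cast : ℤ → ℚ) hsign
  have hs2 : (C ((-1 : ℚ) ^ ((NumberField.classNumber K + 1) / 2)) : MvPolynomial (Fin 3) ℚ)
      * ((∏ i, cvec p i : ℤ) : MvPolynomial (Fin 3) ℚ) = 1 := by
    rw [← map_intCast (C : ℚ →+* MvPolynomial (Fin 3) ℚ), ← map_mul, hs1, map_one]
  have hcc : ((legendreSym p 2 : ℤ) : MvPolynomial (Fin 3) ℚ) * ((legendreSym p 2 : ℤ) : MvPolynomial (Fin 3) ℚ) = 1 := by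
    exact_mod_cast congrArg (Int.cast : ℤ → MvPolynomial (Fin 3) ℚ) hc2
  simp only [div_eq_mul_inv, map_mul, map_sub, map_pow, map_natCast, map_intCast, Int.cast_mul,
    Int.cast_neg, Int.cast_sub, Int.cast_pow, Int.cast_natCast, Int.cast_ofNat, map_ofNat, map_neg,
    map_one] at hs2 ⊢
  generalize (C ((p : ℚ)⁻¹) : MvPolynomial (Fin 3) ℚ) = ip
  generalize ((-1 : MvPolynomial (Fin 3) ℚ)) ^ ((NumberField.classNumber K + 1) / 2) = sg at *
  generalize ((∏ i, cvec p i : ℤ) : MvPolynomial (Fin 3) ℚ) = pr at *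
  generalize ((legendreSym p 2 : ℤ) : MvPolynomial (Fin 3) ℚ) = l2 at *
  linear_combination (-((p : MvPolynomial (Fin 3) ℚ) ^ ((p - 3) / 4) *
        (1 - (((p - 1) / 2 : ℕ) : MvPolynomial (Fin 3) ℚ) * X 1
          - (2 - l2) * (NumberField.classNumber K : MvPolynomial (Fin 3) ℚ) * (X 2 + X 0) +
          ip * (16 * (q' : MvPolynomial (Fin 3) ℚ)) * (X 2 * X 0)))) * hs2
    + ((p : MvPolynomial (Fin 3) ℚ) ^ ((p - 3) / 4) * 16 * (q' : MvPolynomial (Fin 3) ℚ) * ip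
        * X 2 * X 0) * hcc

end Pool.Agent.Results.MP_fe1d70_nt.QTwo
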